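import Pool.Agent.W900.IE.One

/-! Many deviations: the polynomial hierarchy is infinite almost surely. -/

set_option autoImplicit false

namespace Pool.Agent.W900.IE

open Finset H568R2 Pool.Agent.H676 Pool.Agent.NPC Pool.Agent.H620R2.Gauge Pool.Agent.H591R3.PHG
  MeasureTheory

/-- the bound for the number of rows -/
noncomputable def JJ (k : ℕ) : Polynomial ℕ :=
  Polynomial.C (65 + 512 * (k + 1)) * Polynomial.X + Polynomial.C 12

/-- the bound for the length of the inputs -/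
noncomputable def LL (k : ℕ) : Polynomial ℕ :=
  5 * JJ k + Polynomial.C (k + 5) + 2 * (JJ k + 1) * (8 * Polynomial.X + 22 +
    JJ k * (4 * Polynomial.X + 6))

/-- the bound for the length of all strings -/
noncomputable def TTp (P : Polynomial ℕ) (k : ℕ) : Polynomial ℕ :=
  LL k + Polynomial.C k * (2 * P.comp (LL k) + 1)

/-- the bound for everything -/
noncomputable def RI (M : Alg) (P : Polynomial ℕ) (k : ℕ) : Polynomial ℕ :=
  TTp P k + M.p.comp (TTp P k) + Polynomial.C (k + 6)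

theorem eval_JJ (k n : ℕ) : (JJ k).eval n = (65 + 512 * (k + 1)) * n + 12 := by
  simp [JJ]

theorem eval_LL (k n : ℕ) : (LL k).eval n = 5 * (JJ k).eval n + (k + 5) +
    2 * ((JJ k).eval n + 1) * (8 * n + 22 + (JJ k).eval n * (4 * n + 6)) := by
  simp [LL]

theorem eval_TTp (P : Polynomial ℕ) (k n : ℕ) : (TTp P k).eval n =
    (LL k).eval n + k * (2 * P.eval ((LL k).eval n) + 1) := by
  simp [TTp, Polynomial.eval_comp]

theorem eval_RI (M : Alg) (P : Polynomial ℕ) (k n : ℕ) : (RI M P k).eval n =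
    (TTp P k).eval n + M.p.eval ((TTp P k).eval n) + (k + 6) := by
  simp [RI, Polynomial.eval_comp]

theorem sz_desc {n J : ℕ} {E : List Entry} (hEl : E.length = J + 1)
    (h : ∀ ε ∈ E, 2 ^ n ≤ ε.1 + 1 ∧ ε.2.1 ≤ 2 ^ (n + 1) ∧ ε.1 ≤ 2 ^ (n + 1) ∧
      ε.2.2.length = J ∧ ∀ q ∈ ε.2.2, q.1.length = n) :
    sz E ≤ (J + 1) * (8 * n + 22 + J * (4 * n + 6)) + 1 := by
  have hs : ∀ m : ℕ, m ≤ 2 ^ (n + 1) → sz m ≤ 4 * n + 9 := by
    intro m hm
    have h1 := sz_nat_le m
    have h2 : m.size ≤ n + 2 := by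
      rw [Nat.size_le]
      have : 2 ^ (n + 2) = 2 * 2 ^ (n + 1) := by rw [pow_succ]; ring
      have : 1 ≤ 2 ^ (n + 1) := Nat.one_le_two_pow
      omega
    omega
  have h1 := sz_le_length_mul E (8 * n + 21 + J * (4 * n + 6)) (by
    rintro ⟨a, b, rows⟩ hε
    obtain ⟨_, h2, h3, h4, h5⟩ := h _ hε
    dsimp only at h2 h3 h4 h5
    have h6 := hs a h3
    have h7 := hs b h2
    have h8 := sz_le_length_mul rows (4 * n + 5) (by
      rintro ⟨r, c⟩ hq
      have h9 := h5 _ hq
      dsimp only at h9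
      have h10 := sz_listBool_le r
      have h11 := sz_bool_le c
      rw [sz_pair]
      omega)
    rw [h4] at h8
    rw [sz_pair, sz_pair]
    have e : 4 * n + 5 + 1 = 4 * n + 6 := by ring
    rw [e] at h8
    omega)
  rw [hEl] at h1
  have e : 8 * n + 21 + J * (4 * n + 6) + 1 = 8 * n + 22 + J * (4 * n + 6) := by ring
  rw [e] at h1
  exact h1

theorem params2 (R : Polynomial ℕ) : ∃ c n₀ : ℕ, ∀ n, n₀ ≤ n → ∃ u : ℕ,
    R.eval n ≤ 2 ^ (2 * u) ∧ 3 ≤ u ∧ u ≤ n ∧ 2 ^ (2 * u) ≤ n ^ c := by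
  obtain ⟨c, n₀, h⟩ := BC.params 0 R 0
  refine ⟨c, n₀, fun n hn => ?_⟩
  obtain ⟨u, h1, h2, h3, h4, _⟩ := h n hn
  refine ⟨u, h1, h2, by omega, ?_⟩
  have hn1 : (0 : ℝ) < (n : ℝ) ^ c := by
    have : (0 : ℝ) < n := by exact_mod_cast (by omega : 0 < n)
    positivity
  have ht : (1 : ℝ) ≤ 2 ^ (2 * u) := one_le_pow₀ (by norm_num)
  have ht' : (1 : ℝ) ≤ 2 ^ (u + 11) := one_le_pow₀ (by norm_num)
  have h5 : (1 / (24 * (2 : ℝ) ^ (2 * u))) ^ (0 + 2) * (1 / (192 * 2 ^ (2 * u) * 2 ^ (u + 11))) ≤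
      1 / 2 ^ (2 * u) := by
    have h6 : (1 / (24 * (2 : ℝ) ^ (2 * u))) ^ (0 + 2) ≤ 1 := by
      apply pow_le_one₀ (by positivity)
      rw [div_le_one (by positivity)]
      linarith
    have h7 : 1 / (192 * (2 : ℝ) ^ (2 * u) * 2 ^ (u + 11)) ≤ 1 / 2 ^ (2 * u) := by
      apply one_div_le_one_div_of_le (by positivity)
      nlinarith
    calc _ ≤ 1 * (1 / (192 * (2 : ℝ) ^ (2 * u) * 2 ^ (u + 11))) :=
          mul_le_mul_of_nonneg_right h6 (by positivity)
      _ ≤ _ := by rw [one_mul]; exact h7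
  have h6 := h4.trans h5
  rw [div_le_div_iff₀ hn1 (by positivity), one_mul] at h6
  have h7 : (2 : ℝ) ^ (2 * u) ≤ (n : ℝ) ^ c := by linarith
  exact_mod_cast h7

/-- the set of the oracles for which the algorithm `M` solves the hard problem -/
def Easy (p : List Bool → unitInterval) (M : Alg) (P : Polynomial ℕ) (k : ℕ) : Set Oracle :=
  {A | ∃ V : List Bool → List Bool, (∀ x, M.out A x = some (V x)) ∧
    ∀ x, x ∈ lang k (DO k (fun q => (A q ^^ modeB p q))) ↔ Quant (P.eval x.length) V k true x}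

theorem easy_null (p : List Bool → unitInterval)
    (hinf : ∀ n₀ c : ℕ, ∃ n, n₀ ≤ n ∧ (n : ℝ) ^ c + c ≤ dev p n)
    (M : Alg) (P : Polynomial ℕ) (k : ℕ) : indep p (Easy p M P k) = 0 := by
  classical
  obtain ⟨c, n₀, hc⟩ := params2 (RI M P k)
  set c1 : ℕ := 65 + 512 * (k + 1) with hc1
  obtain ⟨c', hc'⟩ := poly_le ((JJ k + 1) * (Polynomial.C (2 ^ 12) * Polynomial.X ^ (c * c1) *
    (JJ k + 5) + 1)) 0
  have key : ∀ t : ℕ, ∃ (N : ℕ) (T : Set Oracle), BC.Dep N T ∧ Easy p M P k ⊆ T ∧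
      indep p T ≤ ENNReal.ofReal (1 / 2) ^ t := by
    intro t
    induction t with
    | zero => exact ⟨0, Set.univ, fun _ _ _ _ => Set.mem_univ _, Set.subset_univ _, by simp⟩
    | succ t ih =>
      obtain ⟨N₁, T, hdep, hsub, hμ⟩ := ih
      obtain ⟨n, hn, hdev⟩ := hinf (max (max n₀ 1) N₁) c'
      have hn0 : n₀ ≤ n := le_trans (le_trans (le_max_left _ _) (le_max_left _ _)) hn
      have hn1 : 1 ≤ n := le_trans (le_trans (le_max_right _ _) (le_max_left _ _)) hn
      have hnN : N₁ ≤ n := le_trans (le_max_right _ _) hn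
      obtain ⟨u, hR, hu3, hun, hup⟩ := hc n hn0
      have h2n : n < 2 ^ n := Nat.lt_two_pow_self
      have h2n1 : 2 ^ (n + 1) = 2 * 2 ^ n := by rw [pow_succ]; ring
      set N₀ : ℕ := 2 ^ n - 1 with hN₀
      set ν : ℕ := 8 * u with hν
      have hν5 : 5 ≤ ν := by omega
      obtain ⟨as, hk, has, hX⟩ := exists_sizes hν5 k _ (inv_start hν5)
      have hlaw := hX (Fin (2 ^ (u + 11))) (2 ^ (3 * u + 11)) (2 ^ (u + 9)) (by
          calc 16 * 2 ^ (3 * u + 11) = 2 ^ (3 * u + 15) := by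
                rw [show 3 * u + 15 = 3 * u + 11 + 4 from rfl, pow_add _ (3 * u + 11) 4]; ring
            _ ≤ 2 ^ (4 * ν) := Nat.pow_le_pow_right (by norm_num) (by omega)) (by
          rw [Fintype.card_fin]
          have : 2 ^ (u + 11) = 4 * 2 ^ (u + 9) := by
            rw [show u + 11 = u + 9 + 2 from rfl, pow_add _ (u + 9) 2]; ring
          omega)
      rw [Fintype.card_fin] at hlaw
      set J : ℕ := u + 11 + as.sum + 8 * ν + 1 with hJ
      have hsum := sum_le ν as has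
      rw [hk] at hsum
      have hJu : J ≤ c1 * u + 12 := by
        have e1 : (k + 1) * (64 * ν) = 512 * (k + 1) * u := by rw [hν]; ring
        have e2 : c1 * u = 65 * u + 512 * (k + 1) * u := by rw [hc1]; ring
        rw [e1] at hsum
        omega
      have hJn : J ≤ (JJ k).eval n := by
        rw [eval_JJ, ← hc1]
        have := Nat.mul_le_mul_left c1 hun
        omega
      -- the masses
      have hmassN : (J + 1) * (2 ^ J * (J + 5) + 1) ≤ n ^ c' + c' := by
        refine le_trans ?_ (hc' n)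
        have e1 : ((JJ k + 1) * (Polynomial.C (2 ^ 12) * Polynomial.X ^ (c * c1) *
            (JJ k + 5) + 1)).eval n = ((JJ k).eval n + 1) * (2 ^ 12 * n ^ (c * c1) *
              ((JJ k).eval n + 5) + 1) := by simp
        rw [e1, add_zero]
        have h3 : 2 ^ J ≤ 2 ^ 12 * n ^ (c * c1) := by
          calc 2 ^ J ≤ 2 ^ (c1 * u + 12) := Nat.pow_le_pow_right (by norm_num) hJu
            _ = 2 ^ 12 * (2 ^ u) ^ c1 := by rw [pow_add, mul_comm, ← pow_mul, mul_comm u]
            _ ≤ 2 ^ 12 * (n ^ c) ^ c1 := by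
                apply Nat.mul_le_mul_left
                apply Nat.pow_le_pow_left
                exact (Nat.pow_le_pow_right (by norm_num) (by omega)).trans hup
            _ = 2 ^ 12 * n ^ (c * c1) := by rw [← pow_mul]
        exact Nat.mul_le_mul (by omega) (Nat.add_le_add (Nat.mul_le_mul h3 (by omega)) le_rfl)
      have hmass : ((J : ℝ) + 1) * (2 ^ J * (J + 5) + 1 / 2) ≤ dev p n := by
        have h3 : (((J + 1) * (2 ^ J * (J + 5) + 1) : ℕ) : ℝ) ≤ ((n ^ c' + c' : ℕ) : ℝ) := by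
          exact_mod_cast hmassN
        push_cast at h3
        have h4 : ((J : ℝ) + 1) * (2 ^ J * (J + 5) + 1 / 2) ≤
            ((J : ℝ) + 1) * (2 ^ J * (J + 5) + 1) := by
          apply mul_le_mul_of_nonneg_left _ (by positivity)
          linarith
        exact h4.trans (h3.trans hdev)
      obtain ⟨E, hEl, hEp, hEd, hEm⟩ := exists_desc p n J hmass
      have hlen : len E as ν u ≤ (LL k).eval n := by
        have h3 := sz_desc hEl hEp
        have h4 : (J + 1) * (8 * n + 22 + J * (4 * n + 6)) ≤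
            ((JJ k).eval n + 1) * (8 * n + 22 + (JJ k).eval n * (4 * n + 6)) :=
          Nat.mul_le_mul (by omega) (Nat.add_le_add le_rfl (Nat.mul_le_mul hJn le_rfl))
        rw [eval_LL]
        unfold len
        rw [hk]
        have e1 : 2 * ((JJ k).eval n + 1) * (8 * n + 22 + (JJ k).eval n * (4 * n + 6)) =
          2 * (((JJ k).eval n + 1) * (8 * n + 22 + (JJ k).eval n * (4 * n + 6))) := by ring
        rw [e1]
        omega
      have hlenT : len E as ν u + k * (2 * P.eval (len E as ν u) + 1) ≤ (TTp P k).eval n := by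
        rw [eval_TTp]
        have h3 : P.eval (len E as ν u) ≤ P.eval ((LL k).eval n) := eval_mono _ hlen
        have h4 : k * (2 * P.eval (len E as ν u) + 1) ≤
          k * (2 * P.eval ((LL k).eval n) + 1) := Nat.mul_le_mul_left _ (by omega)
        omega
      rw [eval_RI] at hR
      have hMt : M.p.eval (len E as ν u + k * (2 * P.eval (len E as ν u) + 1)) ≤
          M.p.eval ((TTp P k).eval n) := eval_mono _ hlenT
      set N : ℕ := 2 ^ (n + 1) + 2 ^ ((qb M).eval (len E as ν u +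
        k * (2 * P.eval (len E as ν u) + 1)) + 1) with hN
      have hN1 : 2 ^ (n + 1) ≤ N := by rw [hN]; exact Nat.le_add_right _ _
      have hN2 : 2 ^ ((qb M).eval (len E as ν u +
        k * (2 * P.eval (len E as ν u) + 1)) + 1) ≤ N := by rw [hN]; exact Nat.le_add_left _ _
      have hlo : ∀ ε ∈ E, N₀ ≤ ε.1 := fun ε hε => by
        have := (hEp ε hε).1
        omega
      have hhi : ∀ ε ∈ E, ε.2.1 ≤ N := fun ε hε => (hEp ε hε).2.1.trans hN1
      refine ⟨N, T ∩ {A | EvI p M P k E as ν u N₀ N A}, ?_, ?_, ?_⟩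
      · rintro A B hAB ⟨h3, h4⟩
        exact ⟨(hdep.mono (by omega)) A B hAB h3, evI_dep hAB h4⟩
      · intro A hA
        refine ⟨hsub hA, ?_⟩
        obtain ⟨V, hM, hL⟩ := hA
        exact evI_of_sig hM hL hk hN2 (by omega) hlo hhi
      · have h3 := BC.split_pre (indep p) (N := N₀) T {A | EvI p M P k E as ν u N₀ N A}
          (ENNReal.ofReal (1 / 2)) (hdep.mono (by omega)) (fun a =>
            step_I p M P hk hν5 hu3 le_rfl rfl hlaw hEl hlo (fun ε hε => (hEp ε hε).2.2.2.1)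
              hEd hEm hN1 (by omega) (by omega) (by omega) a)
        refine h3.trans ?_
        rw [pow_succ, mul_comm (ENNReal.ofReal (1 / 2) ^ t)]
        exact mul_le_mul_right hμ _
  have hle : ∀ t : ℕ, indep p (Easy p M P k) ≤ ENNReal.ofReal (1 / 2) ^ t := by
    intro t
    obtain ⟨N, T, _, h1, h2⟩ := key t
    exact (measure_mono h1).trans h2
  have hlim : Filter.Tendsto (fun t : ℕ => ENNReal.ofReal (1 / 2) ^ t) Filter.atTop (nhds 0) := by
    apply ENNReal.tendsto_pow_atTop_nhds_zero_of_lt_one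
    rw [ENNReal.ofReal_lt_one]
    norm_num
  exact le_antisymm (ge_of_tendsto' hlim hle) zero_le

theorem ae_not_sig (p : List Bool → unitInterval)
    (hinf : ∀ n₀ c : ℕ, ∃ n, n₀ ≤ n ∧ (n : ℝ) ^ c + c ≤ dev p n) :
    ∀ᵐ A ∂(indep p), ∀ k, ¬ IsSig A k (lang k (DO k (fun q => (A q ^^ modeB p q)))) := by
  have h : ∀ᵐ A ∂(indep p), ∀ θ : Par, A ∉ Easy p θ.M θ.p θ.k := by
    rw [ae_all_iff]
    intro θ
    rw [ae_iff]
    simpa using easy_null p hinf θ.M θ.p θ.k
  filter_upwards [h] with A hA k hk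
  obtain ⟨V, P, ⟨M, hM⟩, hL⟩ := hk
  exact hA ⟨M, P, k, 0⟩ ⟨V, hM, hL⟩

theorem tl_xor {A B : Oracle} {d : ℕ} (hB : TL emp d (fun q : List Bool => B q = true)) :
    TL A (2 * (d + 2)) (fun q : List Bool => (A q ^^ B q) = true) := by
  have h1 : TL A 0 (fun q : List Bool => A q = true) := TL.query A Poly.id
  have h2 : TL A (d + 2) (fun q : List Bool => B q = true) := Lev.of_emp hB
  refine ((h1.iff h2.not).mono (by omega)).congr fun q => ?_
  cases A q <;> cases B q <;> simp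

theorem infinite_of_not_sig {A B : Oracle} {d : ℕ}
    (hB : TL emp d (fun q : List Bool => B q = true))
    (h : ∀ k, ¬ IsSig A k (lang k (DO k (fun q => (A q ^^ B q))))) : InfinitePH A := by
  by_contra hcon
  obtain ⟨K, hK⟩ := not_infinite_iff.1 hcon
  apply h (2 * K)
  have h1 := lang_sig (DO (2 * K) (fun q => (A q ^^ B q))) (2 * K)
  have h2 := Lev.derived (tl_DO (tl_xor (A := A) hB) (2 * K)) (lev_of_isSig h1)
  exact (hK _ _ h2).isSig

end Pool.Agent.W900.IE
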