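import Pool.Agent.W900.IE.Cyl

/-! One step. -/

set_option autoImplicit false

namespace Pool.Agent.W900.IE

open Finset H568R2 Pool.Agent.H676 Pool.Agent.NPC Pool.Agent.H620R2.Gauge Pool.Agent.H591R3.PHG
  MeasureTheory

/-- the inputs -/
def xin (E : List Entry) (as : List ℕ) (ν u : ℕ) (j : Fin (2 ^ (u + 11))) : List Bool :=
  enc as (8 * ν) (pairBits (bits E) (bitsOf (u + 11) j.val))

/-- their length -/
def len (E : List Entry) (as : List ℕ) (ν u : ℕ) : ℕ :=
  2 * as.sum + as.length + 2 * (8 * ν) + 1 + (2 * sz E + 1 + (u + 11))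

theorem xin_len (E : List Entry) (as : List ℕ) (ν u : ℕ) (j : Fin (2 ^ (u + 11))) :
    (xin E as ν u j).length = len E as ν u := by
  unfold xin len
  rw [enc_len, length_pairBits, length_bitsOf, bits_length]

/-- the tails of the leaves -/
def tt (as : List ℕ) (ν u : ℕ) (g : Idx (Fin (2 ^ (u + 11))) (8 * ν :: pw as)) : List Bool :=
  tau (fun j : Fin (2 ^ (u + 11)) => bitsOf (u + 11) j.val) as (8 * ν) g

/-- the event that the algorithm is right for all the inputs -/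
def EvI (p : List Bool → unitInterval) (M : Alg) (P : Polynomial ℕ) (k : ℕ) (E : List Entry)
    (as : List ℕ) (ν u N₀ N : ℕ) (A : Oracle) : Prop :=
  ∀ j : Fin (2 ^ (u + 11)), QF (P.eval (len E as ν u)) (leaf M N) k true (xin E as ν u j)
    (pre N A) ≠ Tr (8 * ν :: pw as) (Dv (8 * E.length) E.length (cellF N₀ (N - N₀) E (tt as ν u))
      (fun i => modeB p (str (N₀ + i.1))) (fun i => A (str (N₀ + i.1)))) j

theorem evI_dep {p : List Bool → unitInterval} {M : Alg} {P : Polynomial ℕ} {k : ℕ}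
    {E : List Entry} {as : List ℕ} {ν u N₀ N : ℕ} {A B : Oracle} (hAB : pre N A = pre N B)
    (h : EvI p M P k E as ν u N₀ N A) : EvI p M P k E as ν u N₀ N B := by
  intro j
  have h1 := h j
  have h2 : (fun i : Fin (N - N₀) => A (str (N₀ + i.1))) =
      fun i : Fin (N - N₀) => B (str (N₀ + i.1)) := by
    funext i
    exact congrFun hAB ⟨N₀ + i.1, by omega⟩
  rw [hAB, h2] at h1
  exact h1

theorem evI_of_sig {p : List Bool → unitInterval} {A : Oracle} {M : Alg}
    {V : List Bool → List Bool} (hM : ∀ x, M.out A x = some (V x)) {P : Polynomial ℕ} {k : ℕ}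
    (hL : ∀ x, x ∈ lang k (DO k (fun q => (A q ^^ modeB p q))) ↔
      Quant (P.eval x.length) V k true x) {E : List Entry} {as : List ℕ} {ν u N₀ N : ℕ}
    (hk : as.length = k + 1)
    (hN : 2 ^ ((qb M).eval (len E as ν u + k * (2 * P.eval (len E as ν u) + 1)) + 1) ≤ N)
    (hN₀ : N₀ ≤ N) (hlo : ∀ ε ∈ E, N₀ ≤ ε.1) (hhi : ∀ ε ∈ E, ε.2.1 ≤ N) :
    EvI p M P k E as ν u N₀ N A := by
  intro j
  have h1 := ev_of_sig hM hL hN (xin_len E as ν u j)
  have h2 : xin E as ν u j ∈ lang k (DO k (fun q => (A q ^^ modeB p q))) ↔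
      Tr (8 * ν :: pw as) (fun g => Dl (fun q => (A q ^^ modeB p q)) E (tt as ν u g)) j = false :=
    mem_lang_DO k _ E (8 * ν) (fun j : Fin (2 ^ (u + 11)) => bitsOf (u + 11) j.val) as hk j
  have h3 : (fun g => Dl (fun q => (A q ^^ modeB p q)) E (tt as ν u g)) =
      Dv (8 * E.length) E.length (cellF N₀ (N - N₀) E (tt as ν u))
        (fun i => modeB p (str (N₀ + i.1))) (fun i => A (str (N₀ + i.1))) := by
    funext g
    exact Dl_eq hlo (fun ε hε => by have := hhi ε hε; omega) g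
  rw [h3] at h2
  rw [h2] at h1
  intro heq
  rw [heq] at h1
  cases hb : Tr (8 * ν :: pw as) (Dv (8 * E.length) E.length (cellF N₀ (N - N₀) E (tt as ν u))
      (fun i => modeB p (str (N₀ + i.1))) (fun i => A (str (N₀ + i.1)))) j with
  | true => rw [hb] at h1; exact absurd (h1.2 rfl) (by simp)
  | false => rw [hb] at h1; exact absurd (h1.1 rfl) (by simp)

theorem sum_cellF (p : List Bool → unitInterval) {N₀ N : ℕ} {E : List Entry}
    (hlo : ∀ ε ∈ E, N₀ ≤ ε.1) {G : Type} (τ : G → List Bool) {l : ℕ} (hl : l < E.length) (g : G) :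
    ∑ i ∈ cellF N₀ (N - N₀) E τ l g, lo (fun i : Fin (N - N₀) => (p (str (N₀ + i.1)) : ℝ)) i =
      ∑ i ∈ range N, (if inCell E[l] (τ g) (str i) = true then lop p (str i) else 0) := by
  have hE : E.getD l (0, 0, []) = E[l] := by
    rw [List.getD_eq_getElem?_getD, List.getElem?_eq_getElem hl]
    rfl
  unfold cellF
  rw [hE, Finset.sum_filter]
  have h1 : ∑ i ∈ range N, (if inCell E[l] (τ g) (str i) = true then lop p (str i) else 0) =
      ∑ i ∈ Ico N₀ N, (if inCell E[l] (τ g) (str i) = true then lop p (str i) else 0) := by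
    symm
    apply Finset.sum_subset
    · intro i hi
      rw [Finset.mem_Ico] at hi
      rw [Finset.mem_range]
      omega
    · intro i hi hi2
      rw [Finset.mem_range] at hi
      rw [Finset.mem_Ico] at hi2
      rw [if_neg]
      intro h2
      rw [inCell_iff, idx_str] at h2
      have := hlo _ (List.getElem_mem hl)
      omega
  rw [h1, Finset.sum_Ico_eq_sum_range, Finset.sum_range]
  rfl

theorem two_le_exp : (2 : ℝ) ≤ Real.exp 1 := by
  have := Real.add_one_le_exp (1 : ℝ)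
  linarith

theorem exp_le_four : Real.exp 1 ≤ 4 := by
  have := Real.exp_one_lt_d9
  linarith

theorem exp_num1 (J : ℕ) : (2 : ℝ) ^ J * Real.exp (-(2 * (((J : ℝ) + 5) / 2))) ≤ 1 / 32 := by
  have h1 : Real.exp (-(2 * (((J : ℝ) + 5) / 2))) = (Real.exp 1 ^ (J + 5))⁻¹ := by
    rw [← Real.exp_nat_mul, ← Real.exp_neg]
    congr 1
    push_cast
    ring
  have h2 : (2 : ℝ) ^ (J + 5) ≤ Real.exp 1 ^ (J + 5) :=
    pow_le_pow_left₀ (by norm_num) two_le_exp _
  rw [h1, ← div_eq_mul_inv, div_le_div_iff₀ (by positivity) (by norm_num)]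
  rw [pow_add] at h2
  linarith

theorem exp_num2 {J : ℕ} (hJ : 4 ≤ J) : (2 : ℝ) ^ J * (Real.exp (3 * ((J : ℝ) + 5) / 2 + 1) /
    2 ^ (8 * (J + 1))) ≤ 1 / 32 := by
  have h1 : Real.exp (3 * ((J : ℝ) + 5) / 2 + 1) ≤ 2 ^ (3 * J + 17) := by
    have h2 : Real.exp (3 * ((J : ℝ) + 5) / 2 + 1) ^ 2 ≤ (2 ^ (3 * J + 17)) ^ 2 := by
      have h3 : Real.exp (3 * ((J : ℝ) + 5) / 2 + 1) ^ 2 = Real.exp 1 ^ (3 * J + 17) := by
        rw [← Real.exp_nat_mul, ← Real.exp_nat_mul]
        congr 1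
        push_cast
        ring
      rw [h3]
      calc Real.exp 1 ^ (3 * J + 17) ≤ 4 ^ (3 * J + 17) :=
            pow_le_pow_left₀ (Real.exp_pos 1).le exp_le_four _
        _ = (2 ^ (3 * J + 17)) ^ 2 := by
            rw [← pow_mul, mul_comm (3 * J + 17) 2, pow_mul]
            norm_num
    exact le_of_sq_le_sq h2 (by positivity)
  calc (2 : ℝ) ^ J * (Real.exp (3 * ((J : ℝ) + 5) / 2 + 1) / 2 ^ (8 * (J + 1)))
      ≤ 2 ^ J * (2 ^ (3 * J + 17) / 2 ^ (8 * (J + 1))) := by gcongr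
    _ ≤ 1 / 32 := by
        rw [← mul_div_assoc, ← pow_add, div_le_div_iff₀ (by positivity) (by norm_num)]
        have h3 : (2 : ℝ) ^ (J + (3 * J + 17)) * 32 = 2 ^ (J + (3 * J + 17) + 5) := by
          rw [pow_add _ _ 5]; norm_num
        rw [h3, one_mul]
        exact pow_le_pow_right₀ (by norm_num) (by omega)

theorem card_leaves (as : List ℕ) (w u : ℕ) :
    Fintype.card (Idx (Fin (2 ^ (u + 11))) (w :: pw as)) ≤ 2 ^ (u + 11 + as.sum + w + 1) := by
  have h1 : Fintype.card (Idx (Fin (2 ^ (u + 11))) (w :: pw as)) =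
      Fintype.card (Idx (Fin (2 ^ (u + 11))) (pw as) × Fin w) := rfl
  rw [h1, Fintype.card_prod, BC.card_Idx, Fintype.card_fin, Fintype.card_fin]
  have h2 : w ≤ 2 ^ w := Nat.lt_two_pow_self.le
  calc 2 ^ (u + 11) * 2 ^ as.sum * w ≤ 2 ^ (u + 11) * 2 ^ as.sum * 2 ^ w :=
        Nat.mul_le_mul_left _ h2
    _ = 2 ^ (u + 11 + as.sum + w) := by rw [pow_add _ (u + 11 + as.sum), pow_add _ (u + 11)]
    _ ≤ _ := Nat.pow_le_pow_right (by norm_num) (by omega)

theorem beta_num {k L u : ℕ} (hu : 3 ≤ u) (h : k + L + 6 ≤ 2 ^ (2 * u)) :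
    (k : ℝ) * (2 ^ (L + 2) * (1 / 2) ^ (2 ^ (2 * u) + 1)) + 3 * (1 / 2) ^ (2 ^ u) ≤ 1 / 16 := by
  have hk2 : (k : ℝ) ≤ 2 ^ k := by
    have : k ≤ 2 ^ k := Nat.lt_two_pow_self.le
    exact_mod_cast this
  have h1 : (k : ℝ) * 2 ^ (L + 2) ≤ 2 ^ (k + (L + 2)) := by
    have h0 : (0 : ℝ) ≤ 2 ^ (L + 2) := by positivity
    rw [pow_add _ k (L + 2)]
    exact mul_le_mul_of_nonneg_right hk2 h0
  have h1' := BC.small_term h1 (t := 2 ^ (2 * u)) (by omega)
  have h4 : (1 / 2 : ℝ) ^ (2 ^ u) ≤ 1 / 256 := by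
    calc (1 / 2 : ℝ) ^ (2 ^ u) ≤ (1 / 2) ^ (2 ^ 3) :=
          pow_le_pow_of_le_one (by norm_num) (by norm_num)
            (Nat.pow_le_pow_right (by norm_num) hu)
      _ = 1 / 256 := by norm_num
  have e1 : (k : ℝ) * (2 ^ (L + 2) * (1 / 2) ^ (2 ^ (2 * u) + 1)) =
      (k * 2 ^ (L + 2)) * (1 / 2) ^ (2 ^ (2 * u) + 1) := by ring
  rw [e1]
  linarith

open Classical in
theorem step_I (p : List Bool → unitInterval) (M : Alg) (P : Polynomial ℕ) {k : ℕ}
    {E : List Entry} {as : List ℕ} {ν u n N₀ N J : ℕ} (hk : as.length = k + 1)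
    (hν : 5 ≤ ν) (hu3 : 3 ≤ u) (huν : 8 * u ≤ ν)
    (hJ : J = u + 11 + as.sum + 8 * ν + 1)
    (hlaw : Ex (nxt (1 / 2) (1 / 2 ^ (4 * ν)) 0 (8 * ν) (8 * ν) law0)
      (Wt (X := Fin (2 ^ (u + 11))) (1 / 2 ^ (4 * ν)) (1 / 2 ^ (2 * ν)) (8 * ν * 2 ^ (4 * ν))
        (1 / 256) (2 ^ (3 * u + 11)) (2 ^ (u + 9)) (pw as)) ≤ (9 / 10) ^ (2 ^ (u + 11)))
    (hEl : E.length = J + 1) (hlo : ∀ ε ∈ E, N₀ ≤ ε.1) (hrows : ∀ ε ∈ E, ε.2.2.length = J)
    (hdisj : ∀ (l l' : ℕ) (hl : l < E.length) (hl' : l' < E.length) (i : ℕ), E[l].1 ≤ i →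
        i < E[l].2.1 → E[l'].1 ≤ i → i < E[l'].2.1 → l = l')
    (hmass : ∀ τ : List Bool, ∃ (l : ℕ) (hl : l < E.length), ∀ N, 2 ^ (n + 1) ≤ N →
        ((J : ℝ) + 5) / 2 ≤ ∑ i ∈ range N, (if inCell E[l] τ (str i) = true then
          lop p (str i) else 0) ∧
        ∑ i ∈ range N, (if inCell E[l] τ (str i) = true then lop p (str i) else 0) ≤
          3 * ((J : ℝ) + 5) / 2 + 1)
    (hN : 2 ^ (n + 1) ≤ N) (hN₀ : N₀ ≤ N)
    (hT : len E as ν u + k * (2 * P.eval (len E as ν u) + 1) + k + 6 ≤ 2 ^ (2 * u))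
    (hM : M.p.eval (len E as ν u + k * (2 * P.eval (len E as ν u) + 1)) ≤ 2 ^ (2 * u))
    (a : Fin N₀ → Bool) :
    indep p {A | pre N₀ A = a ∧ EvI p M P k E as ν u N₀ N A} ≤
      ENNReal.ofReal (1 / 2) * indep p {A | pre N₀ A = a} := by
  set K : ℕ := 2 ^ (u + 11) with hK
  set ℓ := len E as ν u with hℓ
  set m := P.eval ℓ with hm
  set q : Fin (N - N₀) → ℝ := fun i => (p (str (N₀ + i.1)) : ℝ) with hq
  have hq0 : ∀ i, 0 ≤ q i := fun i => (p _).2.1
  have hq1 : ∀ i, q i ≤ 1 := fun i => (p _).2.2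
  set F : List Bool → (Fin (N - N₀) → Bool) → Bool := fun y z => leaf M N y (BC.app a z) with hF
  set C := cellF N₀ (N - N₀) E (tt as ν u) with hC
  set Φ : (Fin (N - N₀) → Bool) → Prop := fun z => ∀ j : Fin K,
    QF m F k true (xin E as ν u j) z ≠ Tr (8 * ν :: pw as) (Dv (8 * E.length) E.length C
      (hi q) z) j with hΦ
  have hsub : {A | pre N₀ A = a ∧ EvI p M P k E as ν u N₀ N A} ⊆
      {A : Oracle | pre N₀ A = a ∧ Φ (fun i => A (str (N₀ + i.1)))} := by
    rintro A ⟨h1, h2⟩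
    refine ⟨h1, fun j => ?_⟩
    have h3 := h2 j
    have hpre : pre N A = BC.app a (fun i : Fin (N - N₀) => A (str (N₀ + i.1))) := by
      funext i
      unfold BC.app
      by_cases hi : i.1 < N₀
      · rw [dif_pos hi, ← h1]
        rfl
      · rw [dif_neg hi]
        have : N₀ + (i.1 - N₀) = i.1 := by omega
        simp only [this]
        rfl
    rw [hpre, QF_comp m (leaf M N) (fun z => BC.app a z) k true (xin E as ν u j)
      (fun i : Fin (N - N₀) => A (str (N₀ + i.1)))] at h3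
    exact h3
  refine (measure_mono hsub).trans ((indep_cond p a Φ).trans ?_)
  apply mul_le_mul_left
  apply ENNReal.ofReal_le_ofReal
  have hFd : ∀ y : List Bool, y.length ≤ ℓ + k * (2 * m + 1) → DTr (2 ^ (2 * u)) (F y) := by
    intro y hy
    have h1 : DTr (M.p.eval y.length) (leaf M N y) := dtr_out M N y
    have h2 : M.p.eval y.length ≤ M.p.eval (ℓ + k * (2 * m + 1)) := eval_mono _ hy
    exact BC.app_co a (h1.mono (h2.trans hM))
  choose sel hsel hsm using fun g => hmass (tt as ν u g)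
  have hE : ∀ (l : ℕ) (hl : l < E.length), E.getD l (0, 0, []) = E[l] := by
    intro l hl
    rw [List.getD_eq_getElem?_getD, List.getElem?_eq_getElem hl]
    rfl
  have hcells : ∀ (l l' : ℕ) (g g' : Idx (Fin K) (8 * ν :: pw as)), l < E.length →
      l' < E.length → ∀ i, i ∈ C l g → i ∈ C l' g' → l = l' ∧ g = g' := by
    intro l l' g g' hl hl' i h1 h2
    rw [hC, cellF, Finset.mem_filter, hE l hl] at h1
    rw [hC, cellF, Finset.mem_filter, hE l' hl'] at h2
    have h3 := (inCell_iff _ _ _).1 h1.2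
    have h4 := (inCell_iff _ _ _).1 h2.2
    have h5 : l = l' := hdisj l l' hl hl' _ h3.1 h3.2.1 h4.1 h4.2.1
    subst h5
    refine ⟨rfl, ?_⟩
    have hJl := hrows _ (List.getElem_mem hl)
    have h6 := inCell_disj h1.2 h2.2 (by
      have := tau_len (K := K) (v := u + 11) as (8 * ν) g
      rw [hJl, hJ]
      exact this) (by
      have := tau_len (K := K) (v := u + 11) as (8 * ν) g'
      rw [hJl, hJ]
      exact this)
    exact tau_inj le_rfl as (8 * ν) h6
  have hmain := cell_bound (n := ν) (K := K) rfl hν huν hk hlaw F hFd (xin E as ν u)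
    (fun j => (xin_len E as ν u j).le) hq0 hq1 (cap := 8 * E.length) C hcells sel hsel
    (s1 := ((J : ℝ) + 5) / 2) (s2 := 3 * ((J : ℝ) + 5) / 2 + 1)
    (fun g => by
      rw [hC, sum_cellF p hlo (tt as ν u) (hsel g) g]
      exact (hsm g N hN).1)
    (fun g => by
      rw [hC, sum_cellF p hlo (tt as ν u) (hsel g) g]
      exact (hsm g N hN).2)
  refine le_trans (le_of_eq ?_) (hmain.trans ?_)
  · congr 1
    funext z
    by_cases h : Φ z
    · rw [if_pos h]
      exact (if_pos h).symm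
    · rw [if_neg h]
      exact (if_neg h).symm
  · have hβ := beta_num (k := k) (L := ℓ + k * (2 * m + 1)) hu3 (by omega)
    have hcard : (Fintype.card (Idx (Fin K) (8 * ν :: pw as)) : ℝ) ≤ 2 ^ J := by
      have := card_leaves as (8 * ν) u
      rw [← hJ] at this
      exact_mod_cast this
    have h1 := exp_num1 J
    have h2 := exp_num2 (J := J) (by omega)
    have h3 : (Fintype.card (Idx (Fin K) (8 * ν :: pw as)) : ℝ) *
        (Real.exp (-(2 * (((J : ℝ) + 5) / 2))) + Real.exp (3 * ((J : ℝ) + 5) / 2 + 1) /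
          2 ^ (8 * E.length)) ≤ 1 / 32 + 1 / 32 := by
      rw [hEl]
      refine (mul_le_mul_of_nonneg_right hcard (by positivity)).trans ?_
      rw [mul_add]
      exact add_le_add h1 h2
    linarith

end Pool.Agent.W900.IE
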